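import Mathlib

/-!
Elementary facts on polyhedra given by finitely many linear inequalities.
-/

namespace Pool.Agent.Lib.MP_b30d95_gt

open Finset

/-- Moving from a feasible point along a direction `c` until a constraint with positive slope
becomes tight. -/
theorem ratio_step {V ι : Type*} [AddCommGroup V] [Module ℝ V] [Fintype ι]
    (φ : ι → V →ₗ[ℝ] ℝ) (b : ι → ℝ) (x c : V) (hx : ∀ i, φ i x ≤ b i)
    (hc : ∃ i, 0 < φ i c) :
    ∃ i, 0 < φ i c ∧ ∀ j, φ j (x + ((b i - φ i x) / φ i c) • c) ≤ b j := by
  classical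
  obtain ⟨i₀, hi₀⟩ := hc
  obtain ⟨i, hi, hmin⟩ := Finset.exists_min_image (univ.filter fun i => 0 < φ i c)
    (fun i => (b i - φ i x) / φ i c) ⟨i₀, by simpa using hi₀⟩
  have hi' : 0 < φ i c := by simpa using hi
  refine ⟨i, hi', fun j => ?_⟩
  have hs : 0 ≤ (b i - φ i x) / φ i c := div_nonneg (sub_nonneg.2 (hx i)) hi'.le
  rw [map_add, map_smul, smul_eq_mul]
  by_cases hj : 0 < φ j c
  · have h1 := hmin j (by simpa using hj)
    have h2 : (b i - φ i x) / φ i c * φ j c ≤ b j - φ j x := by
      calc (b i - φ i x) / φ i c * φ j c ≤ (b j - φ j x) / φ j c * φ j c :=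
            mul_le_mul_of_nonneg_right h1 hj.le
        _ = b j - φ j x := by field_simp
    linarith
  · have h2 : (b i - φ i x) / φ i c * φ j c ≤ 0 :=
      mul_nonpos_of_nonneg_of_nonpos hs (not_lt.1 hj)
    linarith [hx j]

/-- A polyhedron with trivial recession cone has, above any feasible point in any linear order
given by a functional `w`, a point whose tight constraints have trivial common kernel. -/
theorem exists_vertex {V ι : Type*} [AddCommGroup V] [Module ℝ V] [Fintype ι]
    (φ : ι → V →ₗ[ℝ] ℝ) (b : ι → ℝ) (hrec : ∀ c, (∀ i, φ i c ≤ 0) → c = 0)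
    (w : V →ₗ[ℝ] ℝ) (x₀ : V) (hx₀ : ∀ i, φ i x₀ ≤ b i) :
    ∃ x, (∀ i, φ i x ≤ b i) ∧ w x₀ ≤ w x ∧ ∀ c, (∀ i, φ i x = b i → φ i c = 0) → c = 0 := by
  classical
  have key : ∀ n : ℕ, ∀ x : V, (∀ i, φ i x ≤ b i) →
      (univ.filter fun i => φ i x ≠ b i).card ≤ n →
      ∃ y, (∀ i, φ i y ≤ b i) ∧ w x ≤ w y ∧ ∀ c, (∀ i, φ i y = b i → φ i c = 0) → c = 0 := by
    intro n
    induction n with
    | zero =>
      intro x hx hcard
      refine ⟨x, hx, le_rfl, fun c hc => hrec c fun i => ?_⟩
      have h0 : (univ.filter fun i => φ i x ≠ b i) = ∅ := by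
        simpa using hcard
      have : φ i x = b i := by
        by_contra hne
        have : i ∈ (univ.filter fun i => φ i x ≠ b i) := by simpa using hne
        rw [h0] at this
        simp at this
      exact (hc i this).le
    | succ n ih =>
      intro x hx hcard
      by_cases hgood : ∀ c, (∀ i, φ i x = b i → φ i c = 0) → c = 0
      · exact ⟨x, hx, le_rfl, hgood⟩
      · push Not at hgood
        obtain ⟨c₀, hc₀, hne₀⟩ := hgood
        obtain ⟨c, hc, hne, hw⟩ : ∃ c, (∀ i, φ i x = b i → φ i c = 0) ∧ c ≠ 0 ∧ 0 ≤ w c := by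
          rcases le_total 0 (w c₀) with h | h
          · exact ⟨c₀, hc₀, hne₀, h⟩
          · refine ⟨-c₀, fun i hi => by simp [hc₀ i hi], neg_ne_zero.2 hne₀, by simpa using h⟩
        have hpos : ∃ i, 0 < φ i c := by
          by_contra hcon
          push Not at hcon
          exact hne (hrec c hcon)
        obtain ⟨i, hi, hfeas⟩ := ratio_step φ b x c hx hpos
        set s : ℝ := (b i - φ i x) / φ i c with hs
        have hs0 : 0 ≤ s := div_nonneg (sub_nonneg.2 (hx i)) hi.le
        have hsub : (univ.filter fun j => φ j (x + s • c) ≠ b j) ⊂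
            (univ.filter fun j => φ j x ≠ b j) := by
          rw [Finset.ssubset_iff_of_subset]
          · refine ⟨i, ?_, ?_⟩
            · simp only [mem_filter, mem_univ, true_and]
              intro h
              exact hi.ne' (hc i h)
            · simp only [mem_filter, mem_univ, true_and, not_not, map_add, map_smul, smul_eq_mul]
              rw [hs]
              field_simp
              ring
          · intro j hj
            simp only [mem_filter, mem_univ, true_and] at hj ⊢
            intro h
            apply hj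
            rw [map_add, map_smul, hc j h, h]
            simp
        have hlt := Finset.card_lt_card hsub
        obtain ⟨y, hy, hwy, hgood⟩ := ih (x + s • c) hfeas (by omega)
        refine ⟨y, hy, le_trans ?_ hwy, hgood⟩
        rw [map_add, map_smul, smul_eq_mul]
        nlinarith [mul_nonneg hs0 hw]
  exact key _ x₀ hx₀ le_rfl

end Pool.Agent.Lib.MP_b30d95_gt
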