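import Mathlib
import Pool.Agent.Lib.MP_b30d95_gt.Vertex

/-!
Feasible bases of a generically perturbed polyhedron and the cancellation along ridges.
-/

namespace Pool.Agent.Lib.MP_b30d95_gt

open Finset Matrix

/-- Generic perturbation: near any point there is a point off finitely many hyperplanes. -/
theorem exists_generic {ι κ : Type*} [Fintype ι] [Finite κ]
    (ψ : κ → (ι → ℝ) →ₗ[ℝ] ℝ) (x₀ : ι → ℝ) :
    ∃ b : ι → ℝ, (∀ k, ψ k ≠ 0 → ψ k b ≠ 0) ∧ ∀ k, 0 < ψ k x₀ → 0 < ψ k b := by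
  have hcont : ∀ k, Continuous (ψ k) := fun k => (ψ k).continuous_of_finiteDimensional
  have hdense : Dense (⋂ k, {b : ι → ℝ | ψ k ≠ 0 → ψ k b ≠ 0}) := by
    apply dense_iInter_of_isOpen
    · intro k
      by_cases hk : ψ k = 0
      · simp [hk]
      · have : {b : ι → ℝ | ψ k ≠ 0 → ψ k b ≠ 0} = (ψ k) ⁻¹' {0}ᶜ := by
          ext b; simp [hk]
        rw [this]
        exact isOpen_compl_singleton.preimage (hcont k)
    · intro k
      by_cases hk : ψ k = 0
      · simp [hk]
      · have : {b : ι → ℝ | ψ k ≠ 0 → ψ k b ≠ 0} = (LinearMap.ker (ψ k) : Set (ι → ℝ))ᶜ := by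
          ext b; simp [hk]
        rw [this, ← interior_eq_empty_iff_dense_compl]
        by_contra hne
        have := Submodule.eq_top_of_nonempty_interior' (LinearMap.ker (ψ k))
          (Set.nonempty_iff_ne_empty.2 hne)
        exact hk (LinearMap.ker_eq_top.1 this)
  have hopen : IsOpen (⋂ k, {b : ι → ℝ | 0 < ψ k x₀ → 0 < ψ k b}) := by
    apply isOpen_iInter_of_finite
    intro k
    by_cases hk : 0 < ψ k x₀
    · have : {b : ι → ℝ | 0 < ψ k x₀ → 0 < ψ k b} = (ψ k) ⁻¹' Set.Ioi 0 := by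
        ext b; simp [hk]
      rw [this]
      exact isOpen_Ioi.preimage (hcont k)
    · simp [hk]
  obtain ⟨b, hb1, hb2⟩ := hdense.inter_open_nonempty _ hopen ⟨x₀, by simp⟩
  exact ⟨b, by simpa using hb2, by simpa using hb1⟩

variable {ι : Type*} {d : ℕ}

/-- The square matrix whose rows are the rows of `A` chosen by `t`. -/
def sub (A : Matrix ι (Fin d) ℝ) (t : Fin d → ι) : Matrix (Fin d) (Fin d) ℝ :=
  Matrix.of fun k => A (t k)

/-- The point where the constraints chosen by `t` are tight. -/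
noncomputable def vtx (A : Matrix ι (Fin d) ℝ) (b : ι → ℝ) (t : Fin d → ι) : Fin d → ℝ :=
  (sub A t)⁻¹ *ᵥ (fun k => b (t k))

/-- `t` is a feasible basis of the polyhedron `A x ≤ b`. -/
def Feas (A : Matrix ι (Fin d) ℝ) (b : ι → ℝ) (t : Fin d → ι) : Prop :=
  (sub A t).det ≠ 0 ∧ ∀ j, A j ⬝ᵥ vtx A b t ≤ b j

/-- `b` is in general position. -/
def Gen (A : Matrix ι (Fin d) ℝ) (b : ι → ℝ) : Prop :=
  ∀ t : Fin d → ι, (sub A t).det ≠ 0 → ∀ j, j ∉ Set.range t → A j ⬝ᵥ vtx A b t ≠ b j

theorem sub_mulVec (A : Matrix ι (Fin d) ℝ) (t : Fin d → ι) (x : Fin d → ℝ) (k : Fin d) :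
    (sub A t *ᵥ x) k = A (t k) ⬝ᵥ x := rfl

theorem vtx_tight (A : Matrix ι (Fin d) ℝ) (b : ι → ℝ) (t : Fin d → ι)
    (ht : (sub A t).det ≠ 0) (k : Fin d) : A (t k) ⬝ᵥ vtx A b t = b (t k) := by
  rw [← sub_mulVec, vtx, Matrix.mulVec_mulVec, Matrix.mul_nonsing_inv _ (Ne.isUnit ht),
    Matrix.one_mulVec]

theorem vtx_unique (A : Matrix ι (Fin d) ℝ) (b : ι → ℝ) (t : Fin d → ι)
    (ht : (sub A t).det ≠ 0) (x : Fin d → ℝ) (hx : ∀ k, A (t k) ⬝ᵥ x = b (t k)) :
    vtx A b t = x := by
  have : (fun k => b (t k)) = sub A t *ᵥ x := by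
    funext k; rw [sub_mulVec, hx]
  rw [vtx, this, Matrix.mulVec_mulVec, Matrix.nonsing_inv_mul _ (Ne.isUnit ht),
    Matrix.one_mulVec]

theorem injective_of_det_ne (A : Matrix ι (Fin d) ℝ) (t : Fin d → ι)
    (ht : (sub A t).det ≠ 0) : Function.Injective t := by
  intro k l hkl
  by_contra hne
  apply ht
  apply Matrix.det_zero_of_row_eq hne
  funext j
  simp [sub, hkl]

/-- A generic right-hand side whose feasible bases are feasible for the all-ones vector. -/
theorem exists_gen [Fintype ι] (A : Matrix ι (Fin d) ℝ) :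
    ∃ b : ι → ℝ, (∀ i, 0 < b i) ∧ Gen A b ∧ ∀ t, Feas A b t → Feas A (fun _ => 1) t := by
  classical
  let ψ₁ : (Fin d → ι) × ι → (ι → ℝ) →ₗ[ℝ] ℝ := fun p =>
    { toFun := fun b => A p.2 ⬝ᵥ vtx A b p.1 - b p.2
      map_add' := by
        intro x y
        have : (fun k => (x + y) (p.1 k)) = (fun k => x (p.1 k)) + fun k => y (p.1 k) := rfl
        simp only [vtx]
        rw [this, Matrix.mulVec_add, dotProduct_add, Pi.add_apply]
        ring
      map_smul' := by
        intro c x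
        have : (fun k => (c • x) (p.1 k)) = c • fun k => x (p.1 k) := rfl
        simp only [vtx]
        rw [this, Matrix.mulVec_smul, dotProduct_smul, Pi.smul_apply]
        simp only [smul_eq_mul, RingHom.id_apply]
        ring }
  let ψ : ((Fin d → ι) × ι) ⊕ ι → (ι → ℝ) →ₗ[ℝ] ℝ :=
    Sum.elim ψ₁ fun i => LinearMap.proj i
  obtain ⟨b, hb1, hb2⟩ := exists_generic ψ (fun _ => 1)
  refine ⟨b, fun i => ?_, ?_, ?_⟩
  · have := hb2 (Sum.inr i) (by simp [ψ])
    simpa [ψ] using this
  · intro t _ j hj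
    have hne : ψ (Sum.inl (t, j)) ≠ 0 := by
      intro h0
      have h1 : ψ (Sum.inl (t, j)) (Pi.single j 1) = 0 := by rw [h0]; rfl
      have h2 : (fun k => (Pi.single j (1 : ℝ) : ι → ℝ) (t k)) = 0 := by
        funext k
        have : t k ≠ j := fun h => hj ⟨k, h⟩
        simp [this]
      have h3 : ψ (Sum.inl (t, j)) (Pi.single j 1) = -1 := by
        show A j ⬝ᵥ vtx A (Pi.single j 1) t - (Pi.single j (1 : ℝ) : ι → ℝ) j = -1
        simp [vtx, h2]
      rw [h3] at h1
      norm_num at h1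
    have := hb1 _ hne
    intro h
    apply this
    show A j ⬝ᵥ vtx A b t - b j = 0
    rw [h, sub_self]
  · rintro t ⟨ht, hf⟩
    refine ⟨ht, fun j => ?_⟩
    by_contra hcon
    have h1 : 0 < ψ (Sum.inl (t, j)) (fun _ => 1) := by
      show 0 < A j ⬝ᵥ vtx A (fun _ => 1) t - 1
      linarith [not_le.1 hcon]
    have h2 : 0 < A j ⬝ᵥ vtx A b t - b j := hb2 _ h1
    linarith [hf j]

/-- The row functionals of `A`. -/
def rowFun (A : Matrix ι (Fin d) ℝ) (i : ι) : (Fin d → ℝ) →ₗ[ℝ] ℝ where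
  toFun x := A i ⬝ᵥ x
  map_add' x y := dotProduct_add _ _ _
  map_smul' c x := by simp

@[simp] theorem rowFun_apply (A : Matrix ι (Fin d) ℝ) (i : ι) (x : Fin d → ℝ) :
    rowFun A i x = A i ⬝ᵥ x := rfl

/-- A feasible basis exists. -/
theorem exists_feas [Fintype ι] (A : Matrix ι (Fin d) ℝ)
    (hrec : ∀ c : Fin d → ℝ, (∀ i, A i ⬝ᵥ c ≤ 0) → c = 0) (b : ι → ℝ) (hb : ∀ i, 0 < b i) :
    ∃ t, Feas A b t := by
  classical
  obtain ⟨x, hx, -, hker⟩ := exists_vertex (rowFun A) b hrec 0 0 (fun i => by simpa using (hb i).le)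
  simp only [rowFun_apply] at hx hker
  let T := {i : ι // A i ⬝ᵥ x = b i}
  let v : T → (Fin d → ℝ) := fun i => A i.1
  have hspan : Submodule.span ℝ (Set.range v) = ⊤ := by
    by_contra hne
    obtain ⟨f, hf0, hf⟩ := Submodule.exists_le_ker_of_lt_top _ (lt_top_iff_ne_top.2 hne)
    let c : Fin d → ℝ := fun j => f (Pi.single j 1)
    have hfc : ∀ y : Fin d → ℝ, f y = y ⬝ᵥ c := by
      intro y
      rw [LinearMap.pi_apply_eq_sum_univ f y]
      refine Finset.sum_congr rfl fun j _ => ?_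
      simp only [smul_eq_mul, c]
      congr 2
      funext k
      simp [Pi.single_apply, eq_comm]
    have hc : c = 0 := by
      apply hker
      intro i hi
      rw [← hfc]
      exact hf (Submodule.subset_span ⟨⟨i, hi⟩, rfl⟩)
    apply hf0
    ext y
    simp [hfc, hc]
  obtain ⟨κ, a, -, hsp, hli⟩ := exists_linearIndependent' ℝ v
  rw [hspan] at hsp
  let B : Module.Basis κ ℝ (Fin d → ℝ) := Module.Basis.mk hli (by rw [hsp])
  let e : Fin d ≃ κ := (Pi.basisFun ℝ (Fin d)).indexEquiv B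
  let t : Fin d → ι := fun k => (a (e k)).1
  have hli' : LinearIndependent ℝ (sub A t).row := by
    have : (sub A t).row = (v ∘ a) ∘ e := rfl
    rw [this]
    exact hli.comp e e.injective
  have hdet : (sub A t).det ≠ 0 :=
    ((Matrix.isUnit_iff_isUnit_det _).1 (Matrix.linearIndependent_rows_iff_isUnit.1 hli')).ne_zero
  have hv : vtx A b t = x := vtx_unique A b t hdet x fun k => (a (e k)).2
  exact ⟨t, hdet, fun j => by rw [hv]; exact hx j⟩

/-- The cofactor vector of the ridge obtained from `t` by deleting position `k`. -/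
noncomputable def cof (A : Matrix ι (Fin d) ℝ) (t : Fin d → ι) (k : Fin d) : Fin d → ℝ :=
  fun j => (sub A t).adjugate j k

theorem sub_update (A : Matrix ι (Fin d) ℝ) (t : Fin d → ι) (k : Fin d) (i : ι) :
    sub A (Function.update t k i) = (sub A t).updateRow k (A i) := by
  ext l j
  by_cases h : l = k
  · subst h; simp [sub]
  · simp [sub, Matrix.updateRow_ne h, Function.update_of_ne h]

theorem det_update (A : Matrix ι (Fin d) ℝ) (t : Fin d → ι) (k : Fin d) (i : ι) :
    (sub A (Function.update t k i)).det = A i ⬝ᵥ cof A t k := by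
  rw [sub_update, ← Matrix.cramer_transpose_apply, Matrix.cramer_eq_adjugate_mulVec,
    ← Matrix.adjugate_transpose, dotProduct_comm]
  rfl

theorem cof_update (A : Matrix ι (Fin d) ℝ) (t : Fin d → ι) (k : Fin d) (i : ι) :
    cof A (Function.update t k i) k = cof A t k := by
  funext j
  simp only [cof, Matrix.adjugate_apply, sub_update, Matrix.updateRow_idem]

theorem row_dot_cof (A : Matrix ι (Fin d) ℝ) (t : Fin d → ι) {k l : Fin d} (h : l ≠ k) :
    A (t l) ⬝ᵥ cof A t k = 0 := by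
  rw [← det_update]
  apply Matrix.det_zero_of_row_eq h
  funext j
  simp [sub, Function.update_of_ne h]

theorem inv_apply_eq (A : Matrix ι (Fin d) ℝ) (t : Fin d → ι) (j k : Fin d) :
    (sub A t)⁻¹ j k = ((sub A t).det)⁻¹ * cof A t k j := by
  rw [Matrix.inv_def]
  simp [cof]

/-- One-sided ratio test along a ridge: for a direction `c` killing the ridge there is exactly
one feasible completion with positive slope. -/
theorem one_side [Fintype ι] (A : Matrix ι (Fin d) ℝ)
    (hrec : ∀ c : Fin d → ℝ, (∀ i, A i ⬝ᵥ c ≤ 0) → c = 0) (b : ι → ℝ) (hg : Gen A b)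
    (t : Fin d → ι) (k : Fin d) (ht : Feas A b t) (ε : ℝ) (hε : ε ≠ 0) :
    ∃ i, 0 < ε * (A i ⬝ᵥ cof A t k) ∧ Feas A b (Function.update t k i) ∧
      ∀ i', 0 < ε * (A i' ⬝ᵥ cof A t k) → Feas A b (Function.update t k i') → i' = i := by
  classical
  set c : Fin d → ℝ := ε • cof A t k with hc
  have hdot : ∀ i, A i ⬝ᵥ c = ε * (A i ⬝ᵥ cof A t k) := fun i => by simp [hc]
  set x := vtx A b t with hx
  have hcne : c ≠ 0 := by
    intro h0
    have h1 := hdot (t k)
    rw [h0, ← det_update, Function.update_eq_self] at h1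
    simp only [dotProduct_zero] at h1
    exact (mul_ne_zero hε ht.1) h1.symm
  have hvt : ∀ i, 0 < A i ⬝ᵥ c → (sub A (Function.update t k i)).det ≠ 0 ∧
      vtx A b (Function.update t k i) = x + ((b i - A i ⬝ᵥ x) / (A i ⬝ᵥ c)) • c := by
    intro i hi
    have hdet : (sub A (Function.update t k i)).det ≠ 0 := by
      rw [det_update]
      intro h0
      rw [hdot, h0] at hi
      simp at hi
    refine ⟨hdet, vtx_unique A b _ hdet _ fun l => ?_⟩
    by_cases h : l = k
    · subst h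
      simp only [Function.update_self, dotProduct_add, dotProduct_smul, smul_eq_mul]
      field_simp
      ring
    · simp only [Function.update_of_ne h, dotProduct_add, dotProduct_smul, smul_eq_mul]
      rw [hdot (t l), row_dot_cof A t h, hx, vtx_tight A b t ht.1]
      simp
  have hpos : ∃ i, 0 < rowFun A i c := by
    by_contra hcon
    push Not at hcon
    exact hcne (hrec c hcon)
  obtain ⟨i, hi, hfeas⟩ := ratio_step (rowFun A) b x c ht.2 hpos
  simp only [rowFun_apply] at hi hfeas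
  refine ⟨i, by rwa [← hdot], ⟨(hvt i hi).1, fun j => by rw [(hvt i hi).2]; exact hfeas j⟩, ?_⟩
  intro i' hi' hf'
  rw [← hdot] at hi'
  by_contra hne
  have h1 := hf'.2 i
  rw [(hvt i' hi').2] at h1
  have h2 := hfeas i'
  simp only [dotProduct_add, dotProduct_smul, smul_eq_mul] at h1 h2
  set s := (b i - A i ⬝ᵥ x) / (A i ⬝ᵥ c) with hs
  set s' := (b i' - A i' ⬝ᵥ x) / (A i' ⬝ᵥ c) with hs'
  have e1 : s * (A i ⬝ᵥ c) = b i - A i ⬝ᵥ x := by rw [hs]; field_simp
  have e2 : s' * (A i' ⬝ᵥ c) = b i' - A i' ⬝ᵥ x := by rw [hs']; field_simp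
  have l1 : s' ≤ s := by
    by_contra hlt
    have := mul_lt_mul_of_pos_right (not_le.1 hlt) hi
    linarith
  have l2 : s ≤ s' := by
    by_contra hlt
    have := mul_lt_mul_of_pos_right (not_le.1 hlt) hi'
    linarith
  have hss : s = s' := le_antisymm l2 l1
  have hnot : i' ∉ Set.range (Function.update t k i) := by
    rintro ⟨l, hl⟩
    by_cases h : l = k
    · subst h
      simp only [Function.update_self] at hl
      exact hne hl.symm
    · rw [Function.update_of_ne h] at hl
      rw [← hl, hdot, row_dot_cof A t h] at hi'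
      simp at hi'
  apply hg _ (hvt i hi).1 i' hnot
  rw [(hvt i hi).2]
  simp only [dotProduct_add, dotProduct_smul, smul_eq_mul]
  rw [← hs, hss, e2]
  ring

/-- Along a ridge of a feasible basis there are exactly two feasible completions, on opposite
sides. -/
theorem two_sides [Fintype ι] (A : Matrix ι (Fin d) ℝ)
    (hrec : ∀ c : Fin d → ℝ, (∀ i, A i ⬝ᵥ c ≤ 0) → c = 0) (b : ι → ℝ) (hg : Gen A b)
    (t : Fin d → ι) (k : Fin d) (ht : Feas A b t) :
    ∃ i₁ i₂, 0 < A i₁ ⬝ᵥ cof A t k ∧ A i₂ ⬝ᵥ cof A t k < 0 ∧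
      ∀ i, Feas A b (Function.update t k i) ↔ (i = i₁ ∨ i = i₂) := by
  obtain ⟨i₁, h1, hf1, hu1⟩ := one_side A hrec b hg t k ht 1 one_ne_zero
  obtain ⟨i₂, h2, hf2, hu2⟩ := one_side A hrec b hg t k ht (-1) (by norm_num)
  refine ⟨i₁, i₂, by linarith, by linarith, fun i => ⟨fun hf => ?_, ?_⟩⟩
  · have hne := hf.1
    rw [det_update] at hne
    rcases lt_or_gt_of_ne hne with h | h
    · exact Or.inr (hu2 i (by linarith) hf)
    · exact Or.inl (hu1 i (by linarith) hf)
  · rintro (rfl | rfl)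
    · exact hf1
    · exact hf2

open Classical in
/-- The cone-volume weight of a basis. -/
noncomputable def wt (A : Matrix ι (Fin d) ℝ) (b : ι → ℝ) (t : Fin d → ι) : ℝ :=
  if Feas A b t then |(sub A t).det| else 0

theorem wt_nonneg (A : Matrix ι (Fin d) ℝ) (b : ι → ℝ) (t : Fin d → ι) : 0 ≤ wt A b t := by
  unfold wt; split_ifs <;> simp

theorem wt_pos (A : Matrix ι (Fin d) ℝ) (b : ι → ℝ) (t : Fin d → ι) (ht : Feas A b t) :
    0 < wt A b t := by
  unfold wt; rw [if_pos ht]; exact abs_pos.2 ht.1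

theorem wt_eq_zero (A : Matrix ι (Fin d) ℝ) (b : ι → ℝ) (t : Fin d → ι) (ht : ¬ Feas A b t) :
    wt A b t = 0 := by
  unfold wt; rw [if_neg ht]

theorem ridge_sum [Fintype ι] (A : Matrix ι (Fin d) ℝ)
    (hrec : ∀ c : Fin d → ℝ, (∀ i, A i ⬝ᵥ c ≤ 0) → c = 0) (b : ι → ℝ) (hg : Gen A b)
    (t : Fin d → ι) (j k : Fin d) :
    ∑ i, wt A b (Function.update t k i) * (sub A (Function.update t k i))⁻¹ j k = 0 := by
  classical
  by_cases hex : ∃ i, Feas A b (Function.update t k i)
  · obtain ⟨i₀, hi₀⟩ := hex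
    obtain ⟨i₁, i₂, h1, h2, hiff⟩ := two_sides A hrec b hg _ k hi₀
    simp only [cof_update, Function.update_idem] at h1 h2 hiff
    have hne : i₁ ≠ i₂ := by
      rintro rfl
      linarith
    have hterm : ∀ i, wt A b (Function.update t k i) * (sub A (Function.update t k i))⁻¹ j k =
        (if i = i₁ then cof A t k j else 0) - (if i = i₂ then cof A t k j else 0) := by
      intro i
      rw [inv_apply_eq, cof_update]
      by_cases e1 : i = i₁
      · subst e1
        rw [wt, if_pos ((hiff i).2 (Or.inl rfl)), det_update, abs_of_pos h1, if_pos rfl,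
          if_neg hne]
        field_simp
        ring
      · by_cases e2 : i = i₂
        · subst e2
          rw [wt, if_pos ((hiff i).2 (Or.inr rfl)), det_update, abs_of_neg h2, if_neg e1,
            if_pos rfl]
          have := h2.ne
          field_simp
          ring
        · rw [wt_eq_zero, if_neg e1, if_neg e2]
          · simp
          · rw [hiff]; tauto
    simp only [hterm, Finset.sum_sub_distrib, Finset.sum_ite_eq', Finset.mem_univ, if_true,
      sub_self]
  · push Not at hex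
    simp [wt_eq_zero _ _ _ (hex _)]

/-- Cancellation along ridges: the basic integration-by-parts identity. -/
theorem cancel [Fintype ι] [Nonempty ι] (A : Matrix ι (Fin d) ℝ)
    (hrec : ∀ c : Fin d → ℝ, (∀ i, A i ⬝ᵥ c ≤ 0) → c = 0) (b : ι → ℝ) (hg : Gen A b)
    (j k : Fin d) (f : (Fin d → ι) → ℝ) (hf : ∀ t i, f (Function.update t k i) = f t) :
    ∑ t, wt A b t * (sub A t)⁻¹ j k * f t = 0 := by
  classical
  let g : (Fin d → ι) × ι → (Fin d → ι) × ι := fun p => (Function.update p.1 k p.2, p.1 k)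
  have hg2 : Function.Involutive g := by
    intro p
    simp [g]
  let F : (Fin d → ι) → ℝ := fun t => wt A b t * (sub A t)⁻¹ j k * f t
  have h1 : ∑ p : (Fin d → ι) × ι, F (g p).1 = ∑ p : (Fin d → ι) × ι, F p.1 :=
    Equiv.sum_comp hg2.toPerm fun p => F p.1
  have h2 : ∑ p : (Fin d → ι) × ι, F (g p).1 = 0 := by
    rw [Fintype.sum_prod_type]
    refine Finset.sum_eq_zero fun t _ => ?_
    simp only [F, g, hf]
    rw [← Finset.sum_mul, ridge_sum A hrec b hg, zero_mul]
  have h3 : ∑ p : (Fin d → ι) × ι, F p.1 = (Fintype.card ι : ℝ) * ∑ t, F t := by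
    rw [Fintype.sum_prod_type, Finset.mul_sum]
    simp
  rw [h2, h3] at h1
  have hc : (Fintype.card ι : ℝ) ≠ 0 := by exact_mod_cast Fintype.card_ne_zero
  exact (mul_eq_zero.1 h1.symm).resolve_left hc

end Pool.Agent.Lib.MP_b30d95_gt
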