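import Mathlib
import Pool.Agent.Lib.MP_b30d95_gt.Bases

/-!
The main inequality in coordinates in which the columns of the constraint matrix are orthogonal.
-/

namespace Pool.Agent.Lib.MP_b30d95_gt

open Finset Matrix

variable {ι : Type*} {d : ℕ}

theorem rec_of_bdd (A : Matrix ι (Fin d) ℝ) (s : ℝ)
    (hs : ∀ x : Fin d → ℝ, (∀ i, A i ⬝ᵥ x ≤ 1) → x ⬝ᵥ x ≤ s) :
    ∀ c : Fin d → ℝ, (∀ i, A i ⬝ᵥ c ≤ 0) → c = 0 := by
  intro c hc
  by_contra hne
  have hpos : 0 < c ⬝ᵥ c := by
    have h0 : 0 ≤ c ⬝ᵥ c := Finset.sum_nonneg fun j _ => mul_self_nonneg _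
    rcases h0.lt_or_eq with h | h
    · exact h
    · exact absurd (dotProduct_self_eq_zero.1 h.symm) hne
  set q := c ⬝ᵥ c with hq
  have hs0 : 0 ≤ s := by simpa using hs 0 (by simp)
  let r : ℝ := s / q + 1
  have hr1 : 1 ≤ r := by
    have : 0 ≤ s / q := div_nonneg hs0 hpos.le
    simp only [r]; linarith
  have h1 := hs (r • c) fun i => by
    rw [dotProduct_smul, smul_eq_mul]
    nlinarith [hc i]
  rw [dotProduct_smul, smul_dotProduct, smul_eq_mul, smul_eq_mul, ← hq] at h1
  have h2 : r * q = s + q := by simp only [r]; field_simp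
  rw [h2] at h1
  nlinarith

/-- The mean of the vertices vanishes. -/
theorem mean_vtx [Fintype ι] [Nonempty ι] (A : Matrix ι (Fin d) ℝ)
    (hrec : ∀ c : Fin d → ℝ, (∀ i, A i ⬝ᵥ c ≤ 0) → c = 0) (b : ι → ℝ) (hg : Gen A b)
    (j : Fin d) : ∑ t, wt A b t * vtx A (fun _ => 1) t j = 0 := by
  have h : ∀ t, wt A b t * vtx A (fun _ => 1) t j = ∑ k, wt A b t * (sub A t)⁻¹ j k * 1 := by
    intro t
    simp [vtx, Matrix.mulVec, dotProduct, Finset.mul_sum]
  simp only [h]
  rw [Finset.sum_comm]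
  exact Finset.sum_eq_zero fun k _ => cancel A hrec b hg j k (fun _ => 1) fun _ _ => rfl

/-- The diagonal entries of the mixed second moment. -/
theorem mixed_moment [Fintype ι] [Nonempty ι] (A : Matrix ι (Fin d) ℝ)
    (hrec : ∀ c : Fin d → ℝ, (∀ i, A i ⬝ᵥ c ≤ 0) → c = 0) (b : ι → ℝ) (hg : Gen A b)
    (j : Fin d) :
    ∑ t, wt A b t * ((∑ l, A (t l) j) * vtx A (fun _ => 1) t j) = ∑ t, wt A b t := by
  classical
  have h : ∀ t, wt A b t * ((∑ l, A (t l) j) * vtx A (fun _ => 1) t j) =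
      wt A b t + ∑ k, wt A b t * (sub A t)⁻¹ j k * ∑ l ∈ univ.erase k, A (t l) j := by
    intro t
    by_cases ht : Feas A b t
    · have hinv : ∑ k, (sub A t)⁻¹ j k * A (t k) j = 1 := by
        have := congrFun (congrFun (Matrix.nonsing_inv_mul (sub A t) (Ne.isUnit ht.1)) j) j
        simpa [Matrix.mul_apply, sub] using this
      have hv : vtx A (fun _ => 1) t j = ∑ k, (sub A t)⁻¹ j k := by
        simp [vtx, Matrix.mulVec, dotProduct]
      have hsplit : ∀ k, ∑ l ∈ univ.erase k, A (t l) j = (∑ l, A (t l) j) - A (t k) j := by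
        intro k
        rw [← Finset.add_sum_erase univ (fun l => A (t l) j) (mem_univ k)]
        ring
      simp only [hsplit, mul_sub, Finset.sum_sub_distrib, mul_assoc, ← Finset.mul_sum, hinv, hv,
        ← Finset.sum_mul]
      ring
    · simp [wt_eq_zero A b t ht]
  simp only [h, Finset.sum_add_distrib]
  rw [Finset.sum_comm, add_eq_left]
  refine Finset.sum_eq_zero fun k _ => cancel A hrec b hg j k _ fun t i => ?_
  refine Finset.sum_congr rfl fun l hl => ?_
  rw [Function.update_of_ne (Finset.ne_of_mem_erase hl)]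

open Classical in
/-- The centred indicator vector of the range of `t`. -/
noncomputable def zv (t : Fin d → ι) (i : ι) : ℝ := if i ∈ Set.range t then 1 / 2 else -1 / 2

theorem zv_sq (t : Fin d → ι) (i : ι) : zv t i ^ 2 = 1 / 4 := by
  unfold zv; split_ifs <;> norm_num

theorem zv_dot [Fintype ι] (t : Fin d → ι) (ht : Function.Injective t) (y : ι → ℝ) :
    ∑ i, zv t i * y i = ∑ l, y (t l) - 1 / 2 * ∑ i, y i := by
  classical
  have h1 : ∑ l, y (t l) = ∑ i, if i ∈ Set.range t then y i else 0 := by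
    rw [← Finset.sum_filter]
    have : univ.filter (fun i => i ∈ Set.range t) = univ.map ⟨t, ht⟩ := by
      ext i; simp
    rw [this, Finset.sum_map]
    rfl
  rw [h1, Finset.mul_sum, ← Finset.sum_sub_distrib]
  refine Finset.sum_congr rfl fun i _ => ?_
  unfold zv
  split_ifs <;> ring

/-- Bessel's identity for the orthogonal columns of `A`. -/
theorem bessel [Fintype ι] (A : Matrix ι (Fin d) ℝ) (m : Fin d → ℝ) (hm : ∀ j, m j ≠ 0)
    (hcol : ∀ j k, ∑ i, A i j * A i k = if j = k then m j else 0) (z : ι → ℝ) :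
    ∑ i, (z i - ∑ j, (∑ i', z i' * A i' j) / m j * A i j) ^ 2 =
      ∑ i, z i ^ 2 - ∑ j, (∑ i', z i' * A i' j) ^ 2 / m j := by
  classical
  set γ : Fin d → ℝ := fun j => ∑ i', z i' * A i' j with hγ
  have e1 : ∑ i, z i * ∑ j, γ j / m j * A i j = ∑ j, γ j ^ 2 / m j := by
    simp only [Finset.mul_sum]
    rw [Finset.sum_comm]
    refine Finset.sum_congr rfl fun j _ => ?_
    have : ∑ i, z i * (γ j / m j * A i j) = γ j / m j * ∑ i, z i * A i j := by
      rw [Finset.mul_sum]
      exact Finset.sum_congr rfl fun i _ => by ring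
    rw [this]
    simp only [hγ]
    ring
  have e2 : ∑ i, (∑ j, γ j / m j * A i j) ^ 2 = ∑ j, γ j ^ 2 / m j := by
    have : ∀ i, (∑ j, γ j / m j * A i j) ^ 2 =
        ∑ j, ∑ k, γ j / m j * (γ k / m k) * (A i j * A i k) := by
      intro i
      rw [sq, Finset.sum_mul_sum]
      exact Finset.sum_congr rfl fun j _ => Finset.sum_congr rfl fun k _ => by ring
    simp only [this]
    rw [Finset.sum_comm]
    refine Finset.sum_congr rfl fun j _ => ?_
    rw [Finset.sum_comm]
    simp only [← Finset.mul_sum, hcol, mul_ite, mul_zero, Finset.sum_ite_eq, Finset.mem_univ,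
      if_true]
    have := hm j
    field_simp
  have e3 : ∀ i, (z i - ∑ j, γ j / m j * A i j) ^ 2 =
      z i ^ 2 - 2 * (z i * ∑ j, γ j / m j * A i j) + (∑ j, γ j / m j * A i j) ^ 2 :=
    fun i => by ring
  show ∑ i, (z i - ∑ j, γ j / m j * A i j) ^ 2 = ∑ i, z i ^ 2 - ∑ j, γ j ^ 2 / m j
  rw [Finset.sum_congr rfl fun i _ => e3 i, Finset.sum_add_distrib, Finset.sum_sub_distrib,
    ← Finset.mul_sum, e1, e2]
  ring

theorem amgm3 {m : ℝ} (hm : 0 < m) :
    0 ≤ 2 * √(2 / m) + m / 2 - 3 ∧ (2 * √(2 / m) + m / 2 - 3 = 0 → m = 2) := by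
  set r := √(2 / m) with hr
  have hr0 : 0 < r := Real.sqrt_pos.2 (by positivity)
  have hr2 : r ^ 2 = 2 / m := Real.sq_sqrt (by positivity)
  have hm2 : m = 2 / r ^ 2 := by rw [hr2]; field_simp
  have key : 2 * r + m / 2 - 3 = (r - 1) ^ 2 * (2 * r + 1) / r ^ 2 := by
    rw [hm2]; field_simp; ring
  rw [key]
  refine ⟨by positivity, fun h => ?_⟩
  have h1 : (r - 1) ^ 2 * (2 * r + 1) = 0 := by
    rcases div_eq_zero_iff.1 h with h | h
    · exact h
    · exact absurd h (by positivity)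
  have h2 : r = 1 := by
    rcases mul_eq_zero.1 h1 with h | h
    · have := pow_eq_zero_iff (two_ne_zero) |>.1 h
      linarith
    · linarith
  rw [hm2, h2]; norm_num

theorem core [Fintype ι] (hd : 0 < d) (hcard : Fintype.card ι = 2 * d)
    (A : Matrix ι (Fin d) ℝ) (hnorm : ∀ i, A i ⬝ᵥ A i ≤ 1)
    (horth : ∀ j k, j ≠ k → ∑ i, A i j * A i k = 0) (s : ℝ)
    (hs : ∀ x : Fin d → ℝ, (∀ i, A i ⬝ᵥ x ≤ 1) → x ⬝ᵥ x ≤ s) :
    (d : ℝ) ≤ s ∧ (s = d → ∃ t t' : Fin d → ι,
      (∀ k l, A (t k) ⬝ᵥ A (t l) = if k = l then 1 else 0) ∧ ∀ k, A (t' k) = -A (t k)) := by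
  classical
  have hne : Nonempty ι := Fintype.card_pos_iff.1 (by omega)
  have hrec := rec_of_bdd A s hs
  obtain ⟨b, hb, hg, hfeas⟩ := exists_gen A
  obtain ⟨t₀, ht₀⟩ := exists_feas A hrec b hb
  set m : Fin d → ℝ := fun j => ∑ i, A i j * A i j with hm
  have hcol : ∀ j k, ∑ i, A i j * A i k = if j = k then m j else 0 := by
    intro j k
    by_cases h : j = k
    · subst h; simp [hm]
    · simp [h, horth j k h]
  have hmpos : ∀ j, 0 < m j := by
    intro j
    have h0 : 0 ≤ m j := Finset.sum_nonneg fun i _ => mul_self_nonneg _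
    rcases h0.lt_or_eq with h | h
    · exact h
    · exfalso
      have hz : ∀ i, A i j = 0 := by
        intro i
        have := (Finset.sum_eq_zero_iff_of_nonneg fun i _ => mul_self_nonneg (A i j)).1 h.symm i
          (mem_univ i)
        exact mul_self_eq_zero.1 this
      have := hrec (Pi.single j 1) fun i => by simp [hz i]
      have := congrFun this j
      simp at this
  set Z : ℝ := ∑ t, wt A b t with hZ
  have hZpos : 0 < Z :=
    Finset.sum_pos' (fun t _ => wt_nonneg A b t) ⟨t₀, mem_univ _, wt_pos A b t₀ ht₀⟩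
  set v : (Fin d → ι) → Fin d → ℝ := fun t => vtx A (fun _ => 1) t with hv
  set γ : (Fin d → ι) → Fin d → ℝ := fun t j => ∑ i, zv t i * A i j with hγ
  set r : Fin d → ℝ := fun j => √(2 / m j) with hr
  set Bes : (Fin d → ι) → ℝ := fun t => ∑ i, (zv t i - ∑ j, γ t j / m j * A i j) ^ 2 with hBes
  have hBes0 : ∀ t, 0 ≤ Bes t := fun t => Finset.sum_nonneg fun i _ => sq_nonneg _
  have hBes1 : ∀ t, Bes t = d / 2 - ∑ j, γ t j ^ 2 / m j := by
    intro t
    simp only [hBes, hγ]
    rw [bessel A m (fun j => (hmpos j).ne') hcol (zv t)]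
    simp only [zv_sq, Finset.sum_const, Finset.card_univ, hcard, nsmul_eq_mul]
    push_cast
    ring
  have hγv : ∀ j, ∑ t, wt A b t * (γ t j * v t j) = Z := by
    intro j
    have h : ∀ t, wt A b t * (γ t j * v t j) = wt A b t * ((∑ l, A (t l) j) * v t j) -
        (1 / 2 * ∑ i, A i j) * (wt A b t * v t j) := by
      intro t
      by_cases ht : Feas A b t
      · simp only [hγ]
        rw [zv_dot t (injective_of_det_ne A t ht.1) fun i => A i j]
        ring
      · simp [wt_eq_zero A b t ht]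
    rw [Finset.sum_congr rfl fun t _ => h t, Finset.sum_sub_distrib, ← Finset.mul_sum]
    simp only [hv]
    rw [mixed_moment A hrec b hg j, mean_vtx A hrec b hg j]
    ring
  have hr2 : ∀ j, r j ^ 2 = 2 / m j := fun j => Real.sq_sqrt (by have := hmpos j; positivity)
  have hpt : ∀ t, 2 * Bes t + 2 * ∑ j, r j * (γ t j * v t j) - d ≤ v t ⬝ᵥ v t := by
    intro t
    rw [hBes1 t]
    have : ∀ j, 2 * (r j * (γ t j * v t j)) - 2 * (γ t j ^ 2 / m j) ≤ v t j * v t j := by
      intro j
      have h1 : 2 * (γ t j ^ 2 / m j) = r j ^ 2 * γ t j ^ 2 := by rw [hr2]; ring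
      rw [h1]
      nlinarith [sq_nonneg (v t j - r j * γ t j)]
    have h2 := Finset.sum_le_sum fun j (_ : j ∈ univ) => this j
    rw [Finset.sum_sub_distrib, ← Finset.mul_sum, ← Finset.mul_sum] at h2
    unfold dotProduct
    linarith
  have hvs : ∀ t, wt A b t * (v t ⬝ᵥ v t) ≤ wt A b t * s := by
    intro t
    by_cases ht : Feas A b t
    · exact mul_le_mul_of_nonneg_left (hs _ (hfeas t ht).2) (wt_nonneg A b t)
    · simp [wt_eq_zero A b t ht]
  have hmain : 2 * ∑ t, wt A b t * Bes t + 2 * (∑ j, r j) * Z - d * Z ≤ Z * s := by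
    have h1 : ∑ t, wt A b t * (2 * Bes t + 2 * ∑ j, r j * (γ t j * v t j) - d) ≤
        ∑ t, wt A b t * s :=
      Finset.sum_le_sum fun t _ =>
        (mul_le_mul_of_nonneg_left (hpt t) (wt_nonneg A b t)).trans (hvs t)
    have h2 : ∑ t, wt A b t * ∑ j, r j * (γ t j * v t j) = (∑ j, r j) * Z := by
      simp only [Finset.mul_sum]
      rw [Finset.sum_comm, Finset.sum_mul]
      refine Finset.sum_congr rfl fun j _ => ?_
      rw [← hγv j, Finset.mul_sum]
      exact Finset.sum_congr rfl fun t _ => by ring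
    have h3 : ∀ t, wt A b t * (2 * Bes t + 2 * ∑ j, r j * (γ t j * v t j) - d) =
        2 * (wt A b t * Bes t) + 2 * (wt A b t * ∑ j, r j * (γ t j * v t j)) - d * wt A b t :=
      fun t => by ring
    simp only [h3, Finset.sum_add_distrib, Finset.sum_sub_distrib, ← Finset.mul_sum,
      ← Finset.sum_mul] at h1
    rw [h2] at h1
    linarith
  have hsumm : ∑ j, m j = ∑ i, A i ⬝ᵥ A i := by
    simp only [hm, dotProduct]
    rw [Finset.sum_comm]
  set κ : Fin d → ℝ := fun j => 2 * r j + m j / 2 - 3 with hκ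
  have hκ0 : ∀ j, 0 ≤ κ j := fun j => (amgm3 (hmpos j)).1
  set η : ι → ℝ := fun i => 1 - A i ⬝ᵥ A i with hη
  have hη0 : ∀ i, 0 ≤ η i := fun i => sub_nonneg.2 (hnorm i)
  have hsumr : 2 * ∑ j, r j = 2 * d + ∑ j, κ j + (∑ i, η i) / 2 := by
    simp only [hκ, hη, Finset.sum_add_distrib, Finset.sum_sub_distrib, ← Finset.mul_sum,
      ← Finset.sum_div, hsumm, Finset.sum_const, Finset.card_univ, hcard, Fintype.card_fin,
      nsmul_eq_mul]
    push_cast
    ring
  have hS1 : 0 ≤ ∑ t, wt A b t * Bes t :=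
    Finset.sum_nonneg fun t _ => mul_nonneg (wt_nonneg A b t) (hBes0 t)
  have hS2 : 0 ≤ ∑ j, κ j := Finset.sum_nonneg fun j _ => hκ0 j
  have hS3 : 0 ≤ ∑ i, η i := Finset.sum_nonneg fun i _ => hη0 i
  rw [hsumr] at hmain
  have hp2 := mul_nonneg hS2 hZpos.le
  have hp3 := mul_nonneg hS3 hZpos.le
  refine ⟨?_, fun hsd => ?_⟩
  · by_contra hcon
    have := mul_lt_mul_of_pos_left (not_le.1 hcon) hZpos
    nlinarith
  · rw [hsd] at hmain
    have z1 : ∑ t, wt A b t * Bes t = 0 := by nlinarith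
    have z2 : ∑ j, κ j = 0 := by
      have : (∑ j, κ j) * Z = 0 := by nlinarith
      exact (mul_eq_zero.1 this).resolve_right hZpos.ne'
    have z3 : ∑ i, η i = 0 := by
      have : (∑ i, η i) * Z = 0 := by nlinarith
      exact (mul_eq_zero.1 this).resolve_right hZpos.ne'
    have hm2 : ∀ j, m j = 2 := fun j => (amgm3 (hmpos j)).2
      ((Finset.sum_eq_zero_iff_of_nonneg fun j _ => hκ0 j).1 z2 j (mem_univ j))
    have hunit : ∀ i, A i ⬝ᵥ A i = 1 := fun i => by
      have := (Finset.sum_eq_zero_iff_of_nonneg fun i _ => hη0 i).1 z3 i (mem_univ i)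
      simp only [hη] at this
      linarith
    have hproj : ∀ t, Feas A b t → ∀ i, zv t i = 1 / 2 * ∑ i', zv t i' * (A i' ⬝ᵥ A i) := by
      intro t ht i
      have h1 := (Finset.sum_eq_zero_iff_of_nonneg fun t _ =>
        mul_nonneg (wt_nonneg A b t) (hBes0 t)).1 z1 t (mem_univ t)
      have h2 : Bes t = 0 := (mul_eq_zero.1 h1).resolve_left (wt_pos A b t ht).ne'
      have h3 := (Finset.sum_eq_zero_iff_of_nonneg fun i _ => sq_nonneg _).1 h2 i (mem_univ i)
      have h4 : zv t i = ∑ j, γ t j / m j * A i j := by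
        have := pow_eq_zero_iff (two_ne_zero) |>.1 h3
        linarith
      rw [h4]
      simp only [hγ, hm2, dotProduct, Finset.mul_sum, Finset.sum_div, Finset.sum_mul]
      rw [Finset.sum_comm]
      exact Finset.sum_congr rfl fun i' _ => Finset.sum_congr rfl fun j _ => by ring
    have hinj := injective_of_det_ne A t₀ ht₀.1
    have hnb : ∀ k, ∃ i', i' ≠ t₀ k ∧ Feas A b (Function.update t₀ k i') := by
      intro k
      obtain ⟨i₁, i₂, h1, h2, hiff⟩ := two_sides A hrec b hg t₀ k ht₀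
      by_cases e : i₁ = t₀ k
      · refine ⟨i₂, ?_, (hiff i₂).2 (Or.inr rfl)⟩
        rintro rfl
        rw [e] at h1
        linarith
      · exact ⟨i₁, e, (hiff i₁).2 (Or.inl rfl)⟩
    choose t' ht'ne ht'f using hnb
    have hdiff : ∀ k i, zv t₀ i - zv (Function.update t₀ k (t' k)) i =
        1 / 2 * (A (t₀ k) ⬝ᵥ A i - A (t' k) ⬝ᵥ A i) := by
      intro k i
      rw [hproj _ ht₀ i, hproj _ (ht'f k) i, zv_dot _ hinj,
        zv_dot _ (injective_of_det_ne A _ (ht'f k).1),
        ← Finset.add_sum_erase univ _ (mem_univ k),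
        ← Finset.add_sum_erase univ (fun l => A (Function.update t₀ k (t' k) l) ⬝ᵥ A i)
          (mem_univ k)]
      have : ∑ l ∈ univ.erase k, A (Function.update t₀ k (t' k) l) ⬝ᵥ A i =
          ∑ l ∈ univ.erase k, A (t₀ l) ⬝ᵥ A i :=
        Finset.sum_congr rfl fun l hl => by
          rw [Function.update_of_ne (Finset.ne_of_mem_erase hl)]
      rw [this, Function.update_self]
      ring
    have hneg : ∀ k, A (t' k) = -A (t₀ k) := by
      intro k
      have h1 := hdiff k (t₀ k)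
      have h2 : zv t₀ (t₀ k) = 1 / 2 := by simp [zv]
      have h3 : zv (Function.update t₀ k (t' k)) (t₀ k) = -1 / 2 := by
        unfold zv
        rw [if_neg]
        rintro ⟨l, hl⟩
        by_cases h : l = k
        · subst h
          rw [Function.update_self] at hl
          exact ht'ne l hl
        · rw [Function.update_of_ne h] at hl
          exact h (hinj hl)
      rw [h2, h3, hunit] at h1
      have h4 : (A (t' k) + A (t₀ k)) ⬝ᵥ (A (t' k) + A (t₀ k)) = 0 := by
        rw [add_dotProduct, dotProduct_add, dotProduct_add, hunit, hunit,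
          dotProduct_comm (A (t₀ k)) (A (t' k))]
        linarith
      exact eq_neg_of_add_eq_zero_left (dotProduct_self_eq_zero.1 h4)
    refine ⟨t₀, t', fun k l => ?_, hneg⟩
    by_cases h : k = l
    · subst h; simp [hunit]
    · rw [if_neg h]
      have h1 := hdiff k (t₀ l)
      have h2 : zv t₀ (t₀ l) = 1 / 2 := by simp [zv]
      have h3 : zv (Function.update t₀ k (t' k)) (t₀ l) = 1 / 2 := by
        unfold zv
        rw [if_pos]
        exact ⟨l, Function.update_of_ne (Ne.symm h) _ _⟩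
      rw [h2, h3, hneg, neg_dotProduct] at h1
      linarith

end Pool.Agent.Lib.MP_b30d95_gt
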