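import Mathlib
import Pool.Agent.Lib.MP_b30d95_gt.Core

/-!
From coordinates to Euclidean space, and from facets to inequalities.
-/

namespace Pool.Agent.Lib.MP_b30d95_gt

open Finset Matrix
open scoped RealInnerProductSpace

/-- The theorem for a bounded intersection of `2 d` half-spaces containing the unit ball. -/
theorem halfspace_form {ι : Type*} [Fintype ι] {d : ℕ} (hd : 0 < d)
    (hcard : Fintype.card ι = 2 * d) (a : ι → EuclideanSpace ℝ (Fin d)) (ha : ∀ i, ‖a i‖ ≤ 1)
    (σ : ℝ) (hσ : ∀ x : EuclideanSpace ℝ (Fin d), (∀ i, ⟪a i, x⟫ ≤ 1) → ‖x‖ ≤ σ) :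
    √(d : ℝ) ≤ σ ∧ (σ = √(d : ℝ) →
      ∃ φ : EuclideanSpace ℝ (Fin d) ≃ₗᵢ[ℝ] EuclideanSpace ℝ (Fin d),
        ∀ x, (∀ i, ⟪a i, x⟫ ≤ 1) ↔ ∀ k, |φ x k| ≤ 1) := by
  classical
  let T : EuclideanSpace ℝ (Fin d) →ₗ[ℝ] EuclideanSpace ℝ (Fin d) :=
    ∑ i, (innerₛₗ ℝ (a i)).smulRight (a i)
  have hT : ∀ x, T x = ∑ i, ⟪a i, x⟫ • a i := by
    intro x
    simp [T, LinearMap.sum_apply]
  have hTin : ∀ x y, ⟪T x, y⟫ = ∑ i, ⟪a i, x⟫ * ⟪a i, y⟫ := by
    intro x y
    rw [hT, sum_inner]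
    exact Finset.sum_congr rfl fun i _ => by rw [real_inner_smul_left]
  have hsym : T.IsSymmetric := by
    intro x y
    rw [hTin, real_inner_comm, hTin]
    exact Finset.sum_congr rfl fun i _ => mul_comm _ _
  have hn : Module.finrank ℝ (EuclideanSpace ℝ (Fin d)) = d := by simp
  let g := hsym.eigenvectorBasis hn
  let A : Matrix ι (Fin d) ℝ := fun i j => ⟪a i, g j⟫
  have hAA : ∀ i i', A i ⬝ᵥ A i' = ⟪a i, a i'⟫ := by
    intro i i'
    rw [← g.sum_inner_mul_inner (a i) (a i')]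
    exact Finset.sum_congr rfl fun j _ => by
      simp only [A]; rw [real_inner_comm (a i') (g j)]
  have horth : ∀ j k, j ≠ k → ∑ i, A i j * A i k = 0 := by
    intro j k hjk
    have h1 := hTin (g j) (g k)
    rw [hsym.apply_eigenvectorBasis hn j, inner_smul_left, g.orthonormal.2 hjk, mul_zero] at h1
    exact h1.symm
  have hσ0 : 0 ≤ σ := by simpa using hσ 0 (by simp)
  have hs : ∀ x : Fin d → ℝ, (∀ i, A i ⬝ᵥ x ≤ 1) → x ⬝ᵥ x ≤ σ ^ 2 := by
    intro x hx
    let y : EuclideanSpace ℝ (Fin d) := ∑ j, x j • g j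
    have hgy : ∀ j, ⟪g j, y⟫ = x j := fun j => by
      simpa using g.orthonormal.inner_right_fintype x j
    have h1 : ∀ i, ⟪a i, y⟫ = A i ⬝ᵥ x := by
      intro i
      rw [← g.sum_inner_mul_inner (a i) y]
      exact Finset.sum_congr rfl fun j _ => by rw [hgy]
    have h2 : ⟪y, y⟫ = x ⬝ᵥ x := by
      rw [← g.sum_inner_mul_inner y y]
      exact Finset.sum_congr rfl fun j _ => by rw [real_inner_comm, hgy]
    have h3 := hσ y fun i => by rw [h1]; exact hx i
    rw [← h2, real_inner_self_eq_norm_sq]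
    exact pow_le_pow_left₀ (norm_nonneg _) h3 2
  obtain ⟨hle, heq⟩ := core hd hcard A (fun i => by
    rw [hAA, real_inner_self_eq_norm_sq]
    exact pow_le_one₀ (norm_nonneg _) (ha i)) horth (σ ^ 2) hs
  refine ⟨Real.sqrt_le_iff.2 ⟨hσ0, hle⟩, fun hσd => ?_⟩
  obtain ⟨t, t', hon, hneg⟩ := heq (by rw [hσd, Real.sq_sqrt (Nat.cast_nonneg d)])
  simp only [hAA] at hon
  have hneg' : ∀ k, a (t' k) = -a (t k) := by
    intro k
    apply g.repr.injective
    ext j
    rw [map_neg, PiLp.neg_apply, g.repr_apply_apply, g.repr_apply_apply, real_inner_comm,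
      real_inner_comm (a (t k))]
    exact congrFun (hneg k) j
  have hf : Orthonormal ℝ fun k => a (t k) := orthonormal_iff_ite.2 hon
  have : Nonempty (Fin d) := ⟨⟨0, hd⟩⟩
  let B := basisOfOrthonormalOfCardEqFinrank hf (by simp)
  have hB : (B : Fin d → EuclideanSpace ℝ (Fin d)) = fun k => a (t k) :=
    coe_basisOfOrthonormalOfCardEqFinrank hf _
  let f := B.toOrthonormalBasis (by rw [hB]; exact hf)
  have hfk : ∀ k, f k = a (t k) := fun k => by
    simp only [f, Module.Basis.coe_toOrthonormalBasis, hB]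
  have hinj : Function.Injective (Sum.elim t t') := by
    have key : ∀ k l, a (t k) = a (t l) → k = l := by
      intro k l h
      by_contra hne
      have h1 := hon k l
      have h2 := hon k k
      rw [if_neg hne, ← h, h2] at h1
      simp at h1
    have key2 : ∀ k l, a (t k) ≠ -a (t l) := by
      intro k l h
      have h1 := hon k l
      have h2 := hon l l
      rw [h, inner_neg_left, h2, if_pos rfl] at h1
      split_ifs at h1 <;> norm_num at h1
    rintro (k | k) (l | l) h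
    · exact congrArg _ (key k l (congrArg a h))
    · exact absurd ((congrArg a h).trans (hneg' l)) (key2 k l)
    · exact absurd ((congrArg a h).symm.trans (hneg' k)) (key2 l k)
    · refine congrArg _ (key k l (neg_injective ?_))
      rw [← hneg', ← hneg']
      exact congrArg a h
  have hsurj : Function.Surjective (Sum.elim t t') :=
    ((Fintype.bijective_iff_injective_and_card _).2 ⟨hinj, by simp [hcard]; omega⟩).2
  refine ⟨f.repr, fun x => ⟨fun hx k => ?_, fun hx i => ?_⟩⟩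
  · rw [f.repr_apply_apply, hfk, abs_le]
    have := hx (t' k)
    rw [hneg', inner_neg_left] at this
    exact ⟨by linarith, hx (t k)⟩
  · obtain ⟨k | k, rfl⟩ := hsurj i
    · have := hx k
      rw [f.repr_apply_apply, hfk] at this
      exact (abs_le.1 this).2
    · have := hx k
      rw [f.repr_apply_apply, hfk] at this
      show ⟪a (t' k), x⟫ ≤ 1
      rw [hneg', inner_neg_left]
      linarith [(abs_le.1 this).1]

/-- A polytope containing the unit ball is cut out by one inequality for each facet. -/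
theorem facet_inequalities {d : ℕ} (S : Set (EuclideanSpace ℝ (Fin d))) (hS : S.Finite)
    (hB : Metric.closedBall 0 1 ⊆ convexHull ℝ S) :
    ∃ a : Set (EuclideanSpace ℝ (Fin d)) → EuclideanSpace ℝ (Fin d), (∀ F, ‖a F‖ ≤ 1) ∧
      ∀ x, x ∈ convexHull ℝ S ↔ ∀ F, (IsExposed ℝ (convexHull ℝ S) F ∧ F.Nonempty ∧
        Module.finrank ℝ (vectorSpan ℝ F) + 1 = d) → ⟪a F, x⟫ ≤ 1 := by
  classical
  set P := convexHull ℝ S with hP
  have hhull : ∀ (c : EuclideanSpace ℝ (Fin d)) (u : ℝ), (∀ s ∈ S, ⟪c, s⟫ ≤ u) →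
      ∀ x ∈ P, ⟪c, x⟫ ≤ u := by
    intro c u h x hx
    have hconv : Convex ℝ {y : EuclideanSpace ℝ (Fin d) | ⟪c, y⟫ ≤ u} :=
      convex_halfSpace_le (innerₛₗ ℝ c).isLinear u
    exact convexHull_min h hconv hx
  have hnorm : ∀ (c : EuclideanSpace ℝ (Fin d)) (u : ℝ), 0 ≤ u → (∀ x ∈ P, ⟪c, x⟫ ≤ u) →
      ‖c‖ ≤ u := by
    intro c u hu h
    by_cases hc : c = 0
    · simpa [hc] using hu
    · have hn : 0 < ‖c‖ := norm_pos_iff.2 hc
      have h1 := h (‖c‖⁻¹ • c) (hB (by
        rw [mem_closedBall_zero_iff, norm_smul, norm_inv, norm_norm, inv_mul_cancel₀ hn.ne']))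
      rw [real_inner_smul_right, real_inner_self_eq_norm_sq] at h1
      have h2 : ‖c‖⁻¹ * ‖c‖ ^ 2 = ‖c‖ := by field_simp
      linarith
  let good : Set (EuclideanSpace ℝ (Fin d)) → EuclideanSpace ℝ (Fin d) → Prop := fun F c =>
    (∀ x ∈ P, ⟪c, x⟫ ≤ 1) ∧ ∀ y ∈ F, ⟪c, y⟫ = 1
  let a : Set (EuclideanSpace ℝ (Fin d)) → EuclideanSpace ℝ (Fin d) := fun F =>
    if h : ∃ c, good F c then h.choose else 0
  have ha : ∀ F, ∀ x ∈ P, ⟪a F, x⟫ ≤ 1 := by
    intro F x hx
    by_cases h : ∃ c, good F c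
    · simp only [a, dif_pos h]
      exact h.choose_spec.1 x hx
    · simp [a, dif_neg h]
  refine ⟨a, fun F => hnorm _ 1 zero_le_one (ha F), fun x => ⟨fun hx F _ => ha F x hx, ?_⟩⟩
  intro hx
  by_contra hxP
  have hclosed : IsClosed P := (hS.isCompact_convexHull ℝ).isClosed
  obtain ⟨f, u, hfu, hux⟩ := geometric_hahn_banach_closed_point (convex_convexHull ℝ S) hclosed hxP
  have hu : 0 < u := by simpa using hfu 0 (hB (by simp))
  let c₀ : EuclideanSpace ℝ (Fin d) := u⁻¹ • (InnerProductSpace.toDual ℝ _).symm f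
  have hc₀ : ∀ y, ⟪y, c₀⟫ = u⁻¹ * f y := by
    intro y
    rw [real_inner_comm, real_inner_smul_left, InnerProductSpace.toDual_symm_apply]
  have := hS.fintype
  obtain ⟨c, hc1, hc2, hc3⟩ := exists_vertex (fun s : S => innerₛₗ ℝ (s : EuclideanSpace ℝ (Fin d)))
    (fun _ => 1) (fun c hc => by
      have h1 := hnorm c 0 le_rfl (hhull c 0 fun s hs => by
        rw [real_inner_comm]; exact hc ⟨s, hs⟩)
      exact norm_le_zero_iff.1 h1) (innerₛₗ ℝ x) c₀ (fun s => by
      have h1 := hfu s (subset_convexHull ℝ S s.2)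
      show ⟪(s : EuclideanSpace ℝ (Fin d)), c₀⟫ ≤ 1
      rw [hc₀, inv_mul_le_iff₀ hu]
      linarith)
  simp only [innerₛₗ_apply_apply] at hc1 hc2 hc3
  have hcx : 1 < ⟪c, x⟫ := by
    rw [real_inner_comm]
    refine lt_of_lt_of_le ?_ hc2
    rw [hc₀, lt_inv_mul_iff₀ hu]
    linarith
  have hc0 : c ≠ 0 := by
    rintro rfl
    simp at hcx
    linarith
  have hcP : ∀ y ∈ P, ⟪c, y⟫ ≤ 1 := hhull c 1 fun s hs => by
    rw [real_inner_comm]; exact hc1 ⟨s, hs⟩
  let F : Set (EuclideanSpace ℝ (Fin d)) := {y ∈ P | ⟪c, y⟫ = 1}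
  have hsF : ∀ s : S, ⟪(s : EuclideanSpace ℝ (Fin d)), c⟫ = 1 →
      (s : EuclideanSpace ℝ (Fin d)) ∈ F := fun s hs =>
    ⟨subset_convexHull ℝ S s.2, by rw [real_inner_comm]; exact hs⟩
  have hspan : ∀ e : EuclideanSpace ℝ (Fin d), (∀ y ∈ F, ⟪y, e⟫ = 0) → e = 0 :=
    fun e he => hc3 e fun s hs => he s (hsF s hs)
  have hFne : F.Nonempty := by
    by_contra hemp
    exact hc0 (hspan c fun y hy => absurd ⟨y, hy⟩ hemp)
  obtain ⟨y₀, hy₀⟩ := hFne
  have hexp : IsExposed ℝ P F := by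
    intro _
    refine ⟨innerSL ℝ c, ?_⟩
    ext y
    simp only [F, Set.mem_ofPred_eq, innerSL_apply_apply]
    refine and_congr_right fun hy => ⟨fun h y' hy' => by rw [h]; exact hcP y' hy', fun h => ?_⟩
    exact le_antisymm (hcP y hy) (by rw [← hy₀.2]; exact h y₀ hy₀.1)
  have horth : (vectorSpan ℝ F)ᗮ = ℝ ∙ c := by
    apply le_antisymm
    · intro e he
      rw [Submodule.mem_orthogonal] at he
      have h1 : e - ⟪y₀, e⟫ • c = 0 := by
        apply hspan
        intro y hy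
        have h2 := he (y - y₀) (vsub_mem_vectorSpan ℝ hy hy₀)
        rw [inner_sub_left] at h2
        rw [inner_sub_right, real_inner_smul_right, real_inner_comm c y, hy.2]
        linarith
      rw [sub_eq_zero.1 h1]
      exact Submodule.smul_mem _ _ (Submodule.mem_span_singleton_self c)
    · rw [Submodule.span_singleton_le_iff_mem, vectorSpan_def, Submodule.mem_orthogonal]
      intro v hv
      induction hv using Submodule.span_induction with
      | mem v hv =>
        obtain ⟨y, hy, y', hy', rfl⟩ := hv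
        show ⟪y - y', c⟫ = 0
        rw [inner_sub_left, real_inner_comm, real_inner_comm c y', hy.2, hy'.2, sub_self]
      | zero => simp
      | add v w _ _ hv hw => rw [inner_add_left, hv, hw, add_zero]
      | smul r v _ hv => rw [real_inner_smul_left, hv, mul_zero]
  have hrank : Module.finrank ℝ (vectorSpan ℝ F) + 1 = d := by
    have h1 := Submodule.finrank_add_finrank_orthogonal (vectorSpan ℝ F)
    rw [horth, finrank_span_singleton hc0] at h1
    simpa using h1
  have hgood : ∃ c', good F c' := ⟨c, hcP, fun y hy => hy.2⟩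
  have haF : a F = c := by
    have h1 : a F = hgood.choose := by simp only [a, dif_pos hgood]
    rw [← sub_eq_zero]
    apply hspan
    intro y hy
    rw [inner_sub_right, real_inner_comm, real_inner_comm c y, h1, hgood.choose_spec.2 y hy, hy.2,
      sub_self]
  have := hx F ⟨hexp, ⟨y₀, hy₀⟩, hrank⟩
  rw [haF] at this
  linarith

end Pool.Agent.Lib.MP_b30d95_gt
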